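import Pool.Agent.Helper57.KE.St

/-!
# Project KE, module LB: the lower bound for the derivative
-/

set_option autoImplicit false

open scoped BigOperators
open Finset

namespace Pool.Agent.Helper45.KE

open Pool.Agent.Helper57.KE Pool.Agent.Helper57.KR Pool.Agent.Helper65.RG

private lemma ss_facts (c : ℝ) (hc : 1 < c) : 0 < ss c ∧ ss c < 1 ∧ ss c ^ 2 = 1 - 1 / c ^ 2 := by
  have h1 : 1 < c ^ 2 := by nlinarith
  have h2 : 1 / c ^ 2 < 1 := by rw [div_lt_one (by linarith)]; exact h1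
  have h3 : 0 < 1 / c ^ 2 := by positivity
  have h4 : ss c ^ 2 = 1 - 1 / c ^ 2 := by
    unfold ss
    exact Real.sq_sqrt (by linarith)
  have h5 : 0 < ss c := by
    unfold ss
    exact Real.sqrt_pos.2 (by linarith)
  refine ⟨h5, ?_, h4⟩
  nlinarith

private lemma weight_le (p σ x : ℝ) (hp : 2 * p - 2 ≤ 0) (hσ : 0 < σ) (hx : 1 ≤ x) :
    x ^ (2 * p - 2) * Real.exp (-(2 * (σ * x))) * (1 + σ * x) ≤ 1 := by
  have h1 : x ^ (2 * p - 2) ≤ 1 := Real.rpow_le_one_of_one_le_of_nonpos hx hp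
  have hy : 0 ≤ σ * x := by positivity
  have h2 : 1 + σ * x ≤ Real.exp (2 * (σ * x)) := by
    have := Real.add_one_le_exp (2 * (σ * x))
    linarith
  have h3 : Real.exp (-(2 * (σ * x))) * (1 + σ * x) ≤ 1 := by
    calc Real.exp (-(2 * (σ * x))) * (1 + σ * x) ≤ Real.exp (-(2 * (σ * x))) * Real.exp (2 * (σ * x)) :=
          mul_le_mul_of_nonneg_left h2 (Real.exp_nonneg _)
      _ = 1 := by rw [← Real.exp_add]; simp
  have h4 : 0 ≤ Real.exp (-(2 * (σ * x))) * (1 + σ * x) := by positivity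
  calc x ^ (2 * p - 2) * Real.exp (-(2 * (σ * x))) * (1 + σ * x) =
        x ^ (2 * p - 2) * (Real.exp (-(2 * (σ * x))) * (1 + σ * x)) := by ring
    _ ≤ 1 * 1 := mul_le_mul h1 h3 h4 zero_le_one
    _ = 1 := one_mul 1

/-- The comparison of the two brackets. -/
private lemma bracket (p η y L a b : ℝ) (hp1 : p ≤ 1) (hη : 0 < η) (hy : 0 ≤ y) :
    (1 + y) * (η / 2 - L * (a + b)) ≤
      ((p + η) * (1 - p + η / 2) + 2 * ((p + η) + 1 - (1 - p + η / 2)) * y - 4 * y ^ 2) -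
        (p * (1 - p) + 4 * p * y - 4 * y ^ 2 + L * (1 + y) * (a + b)) := by
  nlinarith [mul_nonneg hη.le hy, mul_nonneg hη.le (sub_nonneg.2 hp1), sq_nonneg η]

/-- Module LB. -/
theorem hLB : StLB := by
  intro hPT c hc η hη
  obtain ⟨hs0, hs1, hs2⟩ := ss_facts c hc
  obtain ⟨s, hs⟩ : ∃ s, s = ss c := ⟨_, rfl⟩
  rw [← hs] at hs0 hs1 hs2
  obtain ⟨p, hp⟩ : ∃ p, p = (1 - s) / (1 + s) := ⟨_, rfl⟩
  have hpp : pp c = p := by rw [hp, hs]; rfl
  have hp0 : 0 < p := by rw [hp]; exact div_pos (by linarith) (by linarith)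
  have hp1 : p < 1 := by rw [hp, div_lt_one (by linarith)]; linarith
  obtain ⟨L, hL⟩ : ∃ L, L = 6 * s / (1 - s) := ⟨_, rfl⟩
  have hL0 : 0 < L := by rw [hL]; exact div_pos (by linarith) (by linarith)
  obtain ⟨κ, hκ⟩ : ∃ κ, κ = 2 * s / (1 - s) := ⟨_, rfl⟩
  have hκ0 : 0 < κ := by rw [hκ]; exact div_pos (by linarith) (by linarith)
  obtain ⟨k0, hk0⟩ := exists_nat_ge (4 * L / η)
  refine ⟨min s (min ((1 - s) / s) (η * s / (4 * L))), κ + 2 * L, k0, ?_, by positivity, ?_⟩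
  · refine lt_min hs0 (lt_min (div_pos (by linarith) hs0) (by positivity))
  intro v hv m σ hσ hσ0
  have hσs : σ ≤ s := le_trans hσ0 (min_le_left _ _)
  have hσ1 : σ ≤ (1 - s) / s := le_trans hσ0 (le_trans (min_le_right _ _) (min_le_left _ _))
  have hσ2 : σ ≤ η * s / (4 * L) := le_trans hσ0 (le_trans (min_le_right _ _) (min_le_right _ _))
  obtain ⟨hv0, hq⟩ := hv
  rw [hpp]
  obtain ⟨g, hg⟩ : ∃ g, g = gg p σ := ⟨_, rfl⟩
  -- the quadratic inequality
  have hδ0 : 0 < σ / s := by positivity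
  have hδ1 : σ / s ≤ 1 := by rw [div_le_one hs0]; exact hσs
  have q1 := hq (σ / s) hδ0 hδ1 g m
  have hcc : 0 < c ^ 2 := by positivity
  have hc2 : c ^ 2 * (1 - s ^ 2) = 1 := by
    rw [hs2]
    field_simp
    ring
  have q2 : 0 ≤ ∑ i ∈ range m, v i * (σ ^ 2 * g i ^ 2 + 2 * (σ / s) * g i * (g i - sh g i) +
      (g i - sh g i) ^ 2) + v m * (sh g m) ^ 2 := by
    have e1 : ∑ i ∈ range m, v i * (σ ^ 2 * g i ^ 2 + 2 * (σ / s) * g i * (g i - sh g i) +
        (g i - sh g i) ^ 2) = ∑ i ∈ range m, v i * ((1 + σ / s) * g i - sh g i) ^ 2 -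
          (1 - s ^ 2) * ((σ / s) ^ 2 * ∑ i ∈ range m, v i * g i ^ 2) := by
      rw [Finset.mul_sum, Finset.mul_sum, ← Finset.sum_sub_distrib]
      refine Finset.sum_congr rfl fun i _ => ?_
      have e2 : σ ^ 2 = s ^ 2 * (σ / s) ^ 2 := by
        field_simp
      rw [e2]
      ring
    have h1s : 0 < 1 - s ^ 2 := by nlinarith
    have e3 : (1 - s ^ 2) * ((σ / s) ^ 2 * ∑ i ∈ range m, v i * g i ^ 2) ≤
        ∑ i ∈ range m, v i * ((1 + σ / s) * g i - sh g i) ^ 2 + v m * (sh g m) ^ 2 := by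
      calc (1 - s ^ 2) * ((σ / s) ^ 2 * ∑ i ∈ range m, v i * g i ^ 2) ≤ (1 - s ^ 2) * (c ^ 2 *
            (∑ i ∈ range m, v i * ((1 + σ / s) * g i - sh g i) ^ 2 + v m * (sh g m) ^ 2)) :=
            mul_le_mul_of_nonneg_left q1 h1s.le
        _ = (c ^ 2 * (1 - s ^ 2)) * (∑ i ∈ range m, v i * ((1 + σ / s) * g i - sh g i) ^ 2 +
            v m * (sh g m) ^ 2) := by ring
        _ = _ := by rw [hc2, one_mul]
    rw [e1]
    linarith
  -- the terms
  have ht : ∀ i : ℕ, κ * (v i * (σ ^ 2 * g i ^ 2 + 2 * (σ / s) * g i * (g i - sh g i) +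
      (g i - sh g i) ^ 2)) - 2 * L * (if i < k0 then v i else 0) ≤
      v i * (((i : ℝ) + 1) ^ (2 * p - 2) * Real.exp (-(2 * (σ * ((i : ℝ) + 1)))) *
        ((p + η) * (1 - p + η / 2) + 2 * ((p + η) + 1 - (1 - p + η / 2)) * (σ * ((i : ℝ) + 1)) -
          4 * (σ * ((i : ℝ) + 1)) ^ 2)) := by
    intro i
    have hpt := hPT s σ i hs0 hs1 hσ hσs hσ1
    rw [← hp, ← hL, ← hκ, ← hg] at hpt
    have hx : (1 : ℝ) ≤ (i : ℝ) + 1 := by
      have : (0 : ℝ) ≤ i := Nat.cast_nonneg i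
      linarith
    have hx0 : (0 : ℝ) < (i : ℝ) + 1 := by linarith
    have hy : 0 ≤ σ * ((i : ℝ) + 1) := by positivity
    have hbr := bracket p η (σ * ((i : ℝ) + 1)) L (σ / s) (1 / ((i : ℝ) + 1)) hp1.le hη hy
    have hw := weight_le p σ ((i : ℝ) + 1) (by linarith) hσ hx
    obtain ⟨E, hE⟩ : ∃ E, E = ((i : ℝ) + 1) ^ (2 * p - 2) * Real.exp (-(2 * (σ * ((i : ℝ) + 1)))) :=
      ⟨_, rfl⟩
    have hE0 : 0 < E := by rw [hE]; positivity
    rw [← hE] at hpt hw ⊢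
    have h1 : E * ((1 + σ * ((i : ℝ) + 1)) * (η / 2 - L * (σ / s + 1 / ((i : ℝ) + 1)))) ≤
        E * (((p + η) * (1 - p + η / 2) + 2 * ((p + η) + 1 - (1 - p + η / 2)) * (σ * ((i : ℝ) + 1)) -
          4 * (σ * ((i : ℝ) + 1)) ^ 2) - (p * (1 - p) + 4 * p * (σ * ((i : ℝ) + 1)) -
            4 * (σ * ((i : ℝ) + 1)) ^ 2 + L * (1 + σ * ((i : ℝ) + 1)) *
              (σ / s + 1 / ((i : ℝ) + 1)))) := mul_le_mul_of_nonneg_left hbr hE0.le
    have hLs : L * (σ / s) ≤ η / 4 := by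
      calc L * (σ / s) ≤ L * ((η * s / (4 * L)) / s) := by gcongr
        _ = η / 4 := by field_simp
    have h2 : -(2 * L * (if i < k0 then (1 : ℝ) else 0)) ≤
        E * ((1 + σ * ((i : ℝ) + 1)) * (η / 2 - L * (σ / s + 1 / ((i : ℝ) + 1)))) := by
      by_cases hik : i < k0
      · rw [if_pos hik]
        have h3 : -(2 * L) ≤ η / 2 - L * (σ / s + 1 / ((i : ℝ) + 1)) := by
          have h4 : 1 / ((i : ℝ) + 1) ≤ 1 := by rw [div_le_one hx0]; exact hx
          nlinarith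
        have h5 : 0 ≤ E * (1 + σ * ((i : ℝ) + 1)) := by positivity
        have h6 := mul_le_mul_of_nonneg_left h3 h5
        have h7 : E * (1 + σ * ((i : ℝ) + 1)) * (2 * L) ≤ 1 * (2 * L) :=
          mul_le_mul_of_nonneg_right hw (by positivity)
        nlinarith
      · rw [if_neg hik, mul_zero, neg_zero]
        have hki : (k0 : ℝ) ≤ i := by exact_mod_cast not_lt.1 hik
        have h4 : L * (1 / ((i : ℝ) + 1)) ≤ η / 4 := by
          have h5 : 4 * L / η ≤ (i : ℝ) + 1 := by linarith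
          rw [div_le_iff₀ hη] at h5
          rw [mul_one_div, div_le_iff₀ hx0]
          linarith
        have h3 : 0 ≤ η / 2 - L * (σ / s + 1 / ((i : ℝ) + 1)) := by
          rw [mul_add]
          linarith
        positivity
    have h3 : κ * (σ ^ 2 * g i ^ 2 + 2 * (σ / s) * g i * (g i - sh g i) + (g i - sh g i) ^ 2) -
        2 * L * (if i < k0 then (1 : ℝ) else 0) ≤ E * ((p + η) * (1 - p + η / 2) +
          2 * ((p + η) + 1 - (1 - p + η / 2)) * (σ * ((i : ℝ) + 1)) -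
            4 * (σ * ((i : ℝ) + 1)) ^ 2) := by
      rw [mul_sub E] at h1
      linarith
    have h4 := mul_le_mul_of_nonneg_left h3 (hv0 i)
    have h5 : v i * (κ * (σ ^ 2 * g i ^ 2 + 2 * (σ / s) * g i * (g i - sh g i) + (g i - sh g i) ^ 2) -
        2 * L * (if i < k0 then (1 : ℝ) else 0)) =
        κ * (v i * (σ ^ 2 * g i ^ 2 + 2 * (σ / s) * g i * (g i - sh g i) + (g i - sh g i) ^ 2)) -
        2 * L * (if i < k0 then v i else 0) := by
      split_ifs <;> ring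
    rw [h5] at h4
    exact h4
  have hsum := Finset.sum_le_sum fun i (_ : i ∈ range m) => ht i
  rw [Finset.sum_sub_distrib, ← Finset.mul_sum, ← Finset.mul_sum] at hsum
  have hV : ∑ i ∈ range m, (if i < k0 then v i else 0) ≤ ∑ i ∈ range k0, v i := by
    rw [← Finset.sum_filter]
    refine Finset.sum_le_sum_of_subset_of_nonneg (fun i hi => ?_) fun i _ _ => hv0 i
    exact Finset.mem_range.2 (Finset.mem_filter.1 hi).2
  have hV0 : 0 ≤ ∑ i ∈ range k0, v i := Finset.sum_nonneg fun i _ => hv0 i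
  have hm0 : 0 ≤ v m * (sh g m) ^ 2 := mul_nonneg (hv0 m) (sq_nonneg _)
  unfold dPsi
  rw [← hg, ← mul_neg]
  refine mul_le_mul_of_nonneg_left ?_ (Real.rpow_nonneg hσ.le _)
  have hfin : -((κ + 2 * L) * (∑ i ∈ range k0, v i + v m * (sh g m) ^ 2)) ≤
      κ * ∑ i ∈ range m, v i * (σ ^ 2 * g i ^ 2 + 2 * (σ / s) * g i * (g i - sh g i) +
        (g i - sh g i) ^ 2) - 2 * L * ∑ i ∈ range m, (if i < k0 then v i else 0) := by
    have h1 := mul_nonneg hκ0.le q2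
    have h2 := mul_le_mul_of_nonneg_left hV (by positivity : (0 : ℝ) ≤ 2 * L)
    nlinarith [mul_nonneg hκ0.le hV0, mul_nonneg hL0.le hm0]
  exact hfin.trans hsum

end Pool.Agent.Helper45.KE
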